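import Mathlib

set_option autoImplicit false

namespace Pool.Agent.Results.MP_ece58e_al.LocallyGraded

/-! ### Part 1: groups with an automorphism that has finitely many orbits -/

section AutPart

variable {A : Type*} [Group A]

/-- the subgroup generated by the elements `φ j x`, `p ≤ j < q` -/
def win (φ : ℤ → A →* A) (x : A) (p q : ℤ) : Subgroup A :=
  Subgroup.closure {a | ∃ j : ℤ, p ≤ j ∧ j < q ∧ a = φ j x}

lemma mem_win {φ : ℤ → A →* A} {x : A} {p q j : ℤ} (h1 : p ≤ j) (h2 : j < q) :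
    φ j x ∈ win φ x p q :=
  Subgroup.subset_closure ⟨j, h1, h2, rfl⟩

lemma win_fg (φ : ℤ → A →* A) (x : A) (p q : ℤ) : (win φ x p q).FG := by
  rw [Subgroup.fg_iff]
  refine ⟨_, rfl, ?_⟩
  have : {a | ∃ j : ℤ, p ≤ j ∧ j < q ∧ a = φ j x} = (fun j : ℤ => φ j x) '' Set.Ico p q := by
    ext a
    constructor
    · rintro ⟨j, h1, h2, rfl⟩
      exact ⟨j, ⟨h1, h2⟩, rfl⟩
    · rintro ⟨j, ⟨h1, h2⟩, rfl⟩
      exact ⟨j, h1, h2, rfl⟩
  rw [this]
  exact (Set.finite_Ico p q).image _

lemma win_mono {φ : ℤ → A →* A} {x : A} {p q p' q' : ℤ}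
    (h : ∀ j, p ≤ j → j < q → φ j x ∈ win φ x p' q') : win φ x p q ≤ win φ x p' q' := by
  unfold win
  rw [Subgroup.closure_le]
  rintro a ⟨j, h1, h2, rfl⟩
  exact h j h1 h2

variable {φ : ℤ → A →* A} (h0 : ∀ x, φ 0 x = x) (hadd : ∀ i j x, φ (i + j) x = φ i (φ j x))

include hadd in
lemma win_shift (x : A) (p q t : ℤ) {a : A} (ha : a ∈ win φ x p q) :
    φ t a ∈ win φ x (p + t) (q + t) := by
  unfold win at ha
  induction ha using Subgroup.closure_induction with
  | mem y hy =>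
    obtain ⟨j, h1, h2, rfl⟩ := hy
    rw [← hadd, add_comm t j]
    exact mem_win (by linarith) (by linarith)
  | one => rw [map_one]; exact one_mem _
  | mul y z _ _ hy hz => rw [map_mul]; exact mul_mem hy hz
  | inv y _ hy => rw [map_inv]; exact inv_mem hy

include hadd in
lemma all_mem_win {x : A} {p q : ℤ} (hpq : p < q)
    (h1 : φ q x ∈ win φ x p q) (h2 : φ p x ∈ win φ x (p + 1) (q + 1)) (j : ℤ) :
    φ j x ∈ win φ x p q := by
  have hp : φ (p - 1) x ∈ win φ x p q := by
    have := win_shift hadd x _ _ (-1) h2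
    rw [← hadd] at this
    have e1 : -1 + p = p - 1 := by ring
    have e2 : p + 1 + -1 = p := by ring
    have e3 : q + 1 + -1 = q := by ring
    rw [e1, e2, e3] at this
    exact this
  have up : ∀ a ∈ win φ x p q, φ 1 a ∈ win φ x p q := by
    intro a ha
    refine win_mono ?_ (win_shift hadd x p q 1 ha)
    intro j hj1 hj2
    rcases lt_or_eq_of_le (show j ≤ q by linarith) with h | h
    · exact mem_win (by linarith) h
    · rw [h]; exact h1
  have down : ∀ a ∈ win φ x p q, φ (-1) a ∈ win φ x p q := by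
    intro a ha
    refine win_mono ?_ (win_shift hadd x p q (-1) ha)
    intro j hj1 hj2
    rcases lt_or_eq_of_le (show p - 1 ≤ j by linarith) with h | h
    · exact mem_win (by linarith) (by linarith)
    · rw [← h]; exact hp
  have key : ∀ n : ℤ, φ (p + n) x ∈ win φ x p q := by
    intro n
    induction n using Int.induction_on with
    | zero => rw [add_zero]; exact mem_win le_rfl hpq
    | succ i ih =>
      have := up _ ih
      rw [← hadd] at this
      have e : 1 + (p + (i : ℤ)) = p + ((i : ℤ) + 1) := by ring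
      rwa [e] at this
    | pred i ih =>
      have := down _ ih
      rw [← hadd] at this
      have e : -1 + (p + (-(i : ℤ))) = p + (-(i : ℤ) - 1) := by ring
      rwa [e] at this
  have := key (j - p)
  rwa [add_sub_cancel] at this

include h0 hadd in
/-- a relation `x * φ l x = φ s x * φ (s + k) x` with `0 < k < l` puts the whole orbit of `x` in a
finitely generated subgroup -/
lemma window_of_relation {x : A} {k l s : ℤ} (hk : 0 < k) (hkl : k < l)
    (h : x * φ l x = φ s x * φ (s + k) x) :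
    ∃ p q : ℤ, ∀ j : ℤ, φ j x ∈ win φ x p q := by
  have hx : φ 0 x = x := h0 x
  rcases lt_trichotomy s 0 with hs | hs | hs
  · refine ⟨s, l, all_mem_win hadd (by linarith) ?_ ?_⟩
    · have e : φ l x = (φ 0 x)⁻¹ * (φ s x * φ (s + k) x) := by
        rw [hx, ← h]; group
      rw [e]
      exact mul_mem (inv_mem (mem_win (by linarith) (by linarith)))
        (mul_mem (mem_win (by linarith) (by linarith)) (mem_win (by linarith) (by linarith)))
    · have e : φ s x = φ 0 x * φ l x * (φ (s + k) x)⁻¹ := by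
        rw [hx, h]; group
      rw [e]
      exact mul_mem (mul_mem (mem_win (by linarith) (by linarith)) (mem_win (by linarith) (by linarith)))
        (inv_mem (mem_win (by linarith) (by linarith)))
  · subst hs
    have e : φ l x = φ k x := by
      rw [hx, zero_add] at h
      exact mul_left_cancel h
    have e2 : φ (l - k) x = φ 0 x := by
      have := congrArg (fun y => φ (-k) y) e
      simp only [← hadd] at this
      have e1 : -k + l = l - k := by ring
      have e3 : -k + k = 0 := by ring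
      rwa [e1, e3] at this
    refine ⟨0, l - k, all_mem_win hadd (by linarith) ?_ ?_⟩
    · rw [e2]; exact mem_win (by linarith) (by linarith)
    · rw [← e2]; exact mem_win (by linarith) (by linarith)
  · rcases lt_trichotomy l (s + k) with h3 | h3 | h3
    · refine ⟨0, s + k, all_mem_win hadd (by linarith) ?_ ?_⟩
      · have e : φ (s + k) x = (φ s x)⁻¹ * (φ 0 x * φ l x) := by
          rw [hx, h]; group
        rw [e]
        exact mul_mem (inv_mem (mem_win (by linarith) (by linarith)))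
          (mul_mem (mem_win (by linarith) (by linarith)) (mem_win (by linarith) (by linarith)))
      · have e : φ 0 x = φ s x * φ (s + k) x * (φ l x)⁻¹ := by
          rw [hx, ← h]; group
        rw [e]
        exact mul_mem (mul_mem (mem_win (by linarith) (by linarith)) (mem_win (by linarith) (by linarith)))
          (inv_mem (mem_win (by linarith) (by linarith)))
    · have e : φ s x = φ 0 x := by
        rw [← h3] at h
        rw [hx]
        exact (mul_right_cancel h).symm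
      refine ⟨0, s, all_mem_win hadd (by linarith) ?_ ?_⟩
      · rw [e]; exact mem_win (by linarith) (by linarith)
      · rw [← e]; exact mem_win (by linarith) (by linarith)
    · refine ⟨0, l, all_mem_win hadd (by linarith) ?_ ?_⟩
      · have e : φ l x = (φ 0 x)⁻¹ * (φ s x * φ (s + k) x) := by
          rw [hx, ← h]; group
        rw [e]
        exact mul_mem (inv_mem (mem_win (by linarith) (by linarith)))
          (mul_mem (mem_win (by linarith) (by linarith)) (mem_win (by linarith) (by linarith)))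
      · have e : φ 0 x = φ s x * φ (s + k) x * (φ l x)⁻¹ := by
          rw [hx, ← h]; group
        rw [e]
        exact mul_mem (mul_mem (mem_win (by linarith) (by linarith)) (mem_win (by linarith) (by linarith)))
          (inv_mem (mem_win (by linarith) (by linarith)))

include h0 hadd in
/-- pigeonhole: every orbit lies in a finitely generated subgroup -/
lemma exists_window {X : Set A} (hX : X.Finite)
    (hcov : ∀ a : A, ∃ x ∈ X, ∃ k : ℤ, a = φ k x) (x : A) :
    ∃ p q : ℤ, ∀ j : ℤ, φ j x ∈ win φ x p q := by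
  classical
  choose z hz s hs using fun k : ℕ => hcov (x * φ ((k : ℤ) + 1) x)
  have : Finite X := hX
  obtain ⟨y, hy⟩ := Finite.exists_infinite_fiber (fun k : ℕ => (⟨z k, hz k⟩ : X))
  have hinf : ((fun k : ℕ => (⟨z k, hz k⟩ : X)) ⁻¹' {y}).Infinite := Set.infinite_coe_iff.mp hy
  obtain ⟨k0, hk0⟩ := hinf.nonempty
  obtain ⟨k1, hk1, hlt⟩ := hinf.exists_gt k0
  have hzz : z k1 = z k0 := by
    have e1 : (⟨z k0, hz k0⟩ : X) = y := hk0
    have e2 : (⟨z k1, hz k1⟩ : X) = y := hk1
    exact congrArg Subtype.val (e2.trans e1.symm)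
  have e : x * φ ((k1 : ℤ) + 1) x
      = φ (s k1 - s k0) x * φ ((s k1 - s k0) + ((k0 : ℤ) + 1)) x := by
    rw [hs k1, hzz, hadd (s k1 - s k0) ((k0 : ℤ) + 1), ← map_mul, hs k0, ← hadd]
    congr 2
    ring
  exact window_of_relation h0 hadd (by positivity) (by exact_mod_cast Nat.succ_lt_succ hlt) e

include h0 hadd in
/-- **Lemma.** A group with an automorphism that has finitely many orbits is finitely generated. -/
theorem fg_of_finite_orbits {X : Set A} (hX : X.Finite)
    (hcov : ∀ a : A, ∃ x ∈ X, ∃ k : ℤ, a = φ k x) : Group.FG A := by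
  classical
  choose p q hpq using exists_window h0 hadd hX hcov
  have htop : (⊤ : Subgroup A) = hX.toFinset.sup (fun x => win φ x (p x) (q x)) := by
    symm
    rw [eq_top_iff]
    intro a _
    obtain ⟨x, hx, k, rfl⟩ := hcov a
    exact (Finset.le_sup (f := fun x => win φ x (p x) (q x)) (hX.mem_toFinset.mpr hx)) (hpq x k)
  have hsup : ∀ S : Finset A, (S.sup (fun x => win φ x (p x) (q x))).FG := by
    intro S
    induction S using Finset.induction_on with
    | empty => rw [Finset.sup_empty]; exact Subgroup.FG.bot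
    | insert a S _ ih =>
      rw [Finset.sup_insert]
      exact (win_fg φ a _ _).sup ih
  rw [Group.fg_def, htop]
  exact hsup _

end AutPart

section CommPart

variable {A : Type*} [CommGroup A] {φ : ℤ → A →* A} (h0 : ∀ x, φ 0 x = x)
  (hadd : ∀ i j x, φ (i + j) x = φ i (φ j x))

include h0 hadd in
/-- **Lemma.** An abelian group with an automorphism that has finitely many orbits is finite. -/
theorem finite_of_finite_orbits {X : Set A} (hX : X.Finite)
    (hcov : ∀ a : A, ∃ x ∈ X, ∃ k : ℤ, a = φ k x) : Finite A := by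
  classical
  have hfg0 : Group.FG A := fg_of_finite_orbits h0 hadd hX hcov
  have hfg1 : AddGroup.FG (Additive A) := GroupFG.iff_add_fg.mp hfg0
  have hfg : Module.Finite ℤ (Additive A) := Module.Finite.iff_addGroup_fg.mpr hfg1
  by_contra hinf
  -- strictly decreasing chain of the subgroups of `2 ^ j`-th powers
  have hstep : ∀ j : ℕ, ∃ a : A, (∃ b : A, a = b ^ (2 ^ j : ℕ)) ∧ ¬ ∃ b : A, a = b ^ (2 ^ (j + 1) : ℕ) := by
    intro j
    by_contra hcon
    push Not at hcon
    let N : Submodule ℤ (Additive A) := LinearMap.range (LinearMap.lsmul ℤ (Additive A) (2 ^ j : ℤ))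
    have hNfg : N.FG := IsNoetherian.noetherian N
    have hpow : ∀ (k : ℕ) (b : A), Additive.ofMul (b ^ (2 ^ k : ℕ)) = (2 ^ k : ℤ) • Additive.ofMul b := by
      intro k b
      rw [ofMul_pow, ← natCast_zsmul]
      push_cast
      rfl
    have hle : N ≤ (Ideal.span {(2 : ℤ)}) • N := by
      rintro _ ⟨b, rfl⟩
      obtain ⟨b', hb'⟩ := hcon _ ⟨b.toMul, rfl⟩
      have : (LinearMap.lsmul ℤ (Additive A) (2 ^ j : ℤ)) b
          = (2 : ℤ) • ((LinearMap.lsmul ℤ (Additive A) (2 ^ j : ℤ)) (Additive.ofMul b')) := by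
        simp only [LinearMap.lsmul_apply]
        have h1 := congrArg Additive.ofMul hb'
        rw [hpow, hpow] at h1
        rw [ofMul_toMul] at h1
        rw [h1, smul_smul]
        congr 1
        ring
      rw [this]
      exact Submodule.smul_mem_smul (Ideal.mem_span_singleton_self 2) ⟨Additive.ofMul b', rfl⟩
    obtain ⟨r, hr, hr0⟩ := Submodule.exists_sub_one_mem_and_smul_eq_zero_of_fg_of_le_smul _ N hNfg hle
    have hrne : r ≠ 0 := by
      rintro rfl
      rw [Ideal.mem_span_singleton] at hr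
      omega
    have htors : Module.IsTorsion ℤ (Additive A) := by
      intro a
      have h1 : r • ((2 ^ j : ℤ) • a) = 0 := hr0 _ ⟨a, rfl⟩
      rw [smul_smul] at h1
      refine ⟨⟨r * 2 ^ j, ?_⟩, h1⟩
      exact mem_nonZeroDivisors_of_ne_zero (mul_ne_zero hrne (by positivity))
    exact hinf (Module.finite_of_fg_torsion (Additive A) htors)
  choose a ha hna using hstep
  choose x hxX k hk using fun j => hcov (a j)
  have hxj : ∀ j, (∃ b : A, x j = b ^ (2 ^ j : ℕ)) ∧ ¬ ∃ b : A, x j = b ^ (2 ^ (j + 1) : ℕ) := by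
    intro j
    have hxa : x j = φ (-(k j)) (a j) := by
      rw [hk j, ← hadd, neg_add_cancel, h0]
    constructor
    · obtain ⟨b, hb⟩ := ha j
      refine ⟨φ (-(k j)) b, ?_⟩
      rw [hxa, hb, map_pow]
    · rintro ⟨b, hb⟩
      apply hna j
      refine ⟨φ (k j) b, ?_⟩
      rw [hk j, hb, map_pow]
  have hinj : Function.Injective (fun j => (⟨x j, hxX j⟩ : X)) := by
    have key : ∀ i j, i < j → x i ≠ x j := by
      intro i j hij heq
      obtain ⟨b, hb⟩ := (hxj j).1
      apply (hxj i).2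
      refine ⟨b ^ (2 ^ (j - (i + 1)) : ℕ), ?_⟩
      rw [heq, hb, ← pow_mul, ← pow_add]
      congr 2
      omega
    intro i j hij
    have hij' : x i = x j := congrArg Subtype.val hij
    rcases lt_trichotomy i j with h | h | h
    · exact absurd hij' (key i j h)
    · exact h
    · exact absurd hij'.symm (key j i h)
  have : Finite X := hX
  exact not_injective_infinite_finite _ hinj

end CommPart

/-! ### Part 2: groups covered by finitely many double cosets of a cyclic group -/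

section GroupPart

open Subgroup
open scoped Pointwise commutatorElement

variable {G : Type*} [Group G]

/-- `G = C F C` where `C` is the cyclic group generated by `c` -/
def Cov (c : G) (F : Set G) : Prop := ∀ g : G, ∃ i j : ℤ, ∃ f ∈ F, g = c ^ i * f * c ^ j

lemma Cov.map {H : Type*} [Group H] {c : G} {F : Set G} (h : Cov c F) (φ : G →* H)
    (hφ : Function.Surjective φ) : Cov (φ c) (φ '' F) := by
  intro x
  obtain ⟨g, rfl⟩ := hφ x
  obtain ⟨i, j, f, hf, rfl⟩ := h g
  exact ⟨i, j, φ f, ⟨f, hf, rfl⟩, by simp⟩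

lemma index_of_cover {H : Subgroup G} {T : Set G} (hT : T.Finite)
    (h : ∀ g, ∃ t ∈ T, t⁻¹ * g ∈ H) : H.index ≠ 0 := by
  have : Finite T := hT
  have hs : Function.Surjective (fun t : T => ((t : G) : G ⧸ H)) := by
    intro x
    obtain ⟨g, rfl⟩ := QuotientGroup.mk_surjective x
    obtain ⟨t, ht, h1⟩ := h g
    exact ⟨⟨t, ht⟩, QuotientGroup.eq.mpr h1⟩
  have : Finite (G ⧸ H) := Finite.of_surjective _ hs
  exact index_ne_zero_of_finite

lemma cover_of_index {H : Subgroup G} (h : H.index ≠ 0) :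
    ∃ T : Set G, T.Finite ∧ ∀ g, ∃ t ∈ T, t⁻¹ * g ∈ H := by
  have : Finite (G ⧸ H) := by
    have := FiniteIndex.mk h
    exact finite_quotient_of_finiteIndex
  refine ⟨Set.range (Quotient.out : G ⧸ H → G), Set.finite_range _, ?_⟩
  intro g
  refine ⟨Quotient.out (g : G ⧸ H), ⟨_, rfl⟩, ?_⟩
  exact QuotientGroup.eq.mp (QuotientGroup.out_eq' _)

lemma index_of_quotient {N : Subgroup G} [N.Normal] (hN : (N : Set G).Finite) {c : G}
    (h : (zpowers (QuotientGroup.mk' N c)).index ≠ 0) : (zpowers c).index ≠ 0 := by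
  obtain ⟨T, hT, hcov⟩ := cover_of_index h
  refine index_of_cover (T := (Quotient.out '' T) * (N : Set G)) ((hT.image _).mul hN) ?_
  intro g
  obtain ⟨t, ht, h1⟩ := hcov (g : G ⧸ N)
  obtain ⟨k, hk⟩ := mem_zpowers_iff.mp h1
  have e1 : ((Quotient.out t : G) : G ⧸ N) = t := QuotientGroup.out_eq' t
  have e2 : (((Quotient.out t)⁻¹ * g : G) : G ⧸ N) = ((c ^ k : G) : G ⧸ N) := by
    rw [QuotientGroup.mk_mul, QuotientGroup.mk_inv, e1, QuotientGroup.mk_zpow]
    exact hk.symm
  rw [QuotientGroup.eq_iff_div_mem] at e2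
  refine ⟨Quotient.out t * ((Quotient.out t)⁻¹ * g / c ^ k), ⟨_, ⟨t, ht, rfl⟩, _, e2, rfl⟩, ?_⟩
  rw [mem_zpowers_iff]
  exact ⟨k, by simp [div_eq_mul_inv, mul_assoc]⟩

lemma index_of_abelian_normal {A : Subgroup G} [hA : A.Normal]
    (hab : ∀ x ∈ A, ∀ y ∈ A, x * y = y * x) {c : G} {F : Set G} (hF : F.Finite) (hc : Cov c F)
    {k : ℕ} (hk : 0 < k) (hck : c ^ k ∈ A) : (zpowers c).index ≠ 0 := by
  let U : Set G := (fun p : (ℤ × ℤ) × G => c ^ p.1.1 * p.2 * c ^ p.1.2) ''
    ((Set.Ico (0 : ℤ) k ×ˢ Set.Ico (0 : ℤ) k) ×ˢ F)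
  have hU : U.Finite := (((Set.finite_Ico _ _).prod (Set.finite_Ico _ _)).prod hF).image _
  have hkz : (0 : ℤ) < k := by exact_mod_cast hk
  have hpow : ∀ m : ℤ, c ^ (k * m) ∈ A := by
    intro m
    rw [zpow_mul, zpow_natCast]
    exact A.zpow_mem hck m
  have hdec : ∀ g : G, ∃ u ∈ U, ∃ a b : ℤ, g = c ^ (k * a) * u * c ^ (k * b) := by
    intro g
    obtain ⟨i, j, f, hf, rfl⟩ := hc g
    refine ⟨c ^ (i % k) * f * c ^ (j % k), ⟨((i % k, j % k), f), ⟨⟨⟨Int.emod_nonneg _ hkz.ne', Int.emod_lt_of_pos _ hkz⟩,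
      ⟨Int.emod_nonneg _ hkz.ne', Int.emod_lt_of_pos _ hkz⟩⟩, hf⟩, rfl⟩, i / k, j / k, ?_⟩
    have e1 : c ^ i = c ^ (k * (i / k)) * c ^ (i % k) := by
      rw [← zpow_add, Int.mul_ediv_add_emod]
    have e2 : c ^ j = c ^ (j % k) * c ^ (k * (j / k)) := by
      rw [← zpow_add, Int.emod_add_mul_ediv]
    rw [e1, e2]
    group
  refine index_of_cover (hU.mul hU) ?_
  intro g
  obtain ⟨u, hu, a, b, h1⟩ := hdec g
  have hmem : u⁻¹ * g ∈ A := by
    have : u⁻¹ * g = (u⁻¹ * c ^ (k * a) * u) * c ^ (k * b) := by rw [h1]; group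
    rw [this]
    refine A.mul_mem ?_ (hpow b)
    have := hA.conj_mem _ (hpow a) u⁻¹
    rwa [inv_inv] at this
  obtain ⟨v, hv, a', b', h2⟩ := hdec (u⁻¹ * g)
  have hvA : v ∈ A := by
    have : v = (c ^ (k * a'))⁻¹ * (u⁻¹ * g) * (c ^ (k * b'))⁻¹ := by rw [h2]; group
    rw [this]
    exact A.mul_mem (A.mul_mem (A.inv_mem (hpow a')) hmem) (A.inv_mem (hpow b'))
  refine ⟨u * v, ⟨u, hu, v, hv, rfl⟩, ?_⟩
  have : (u * v)⁻¹ * g = c ^ (k * a' + k * b') := by
    have e : (u * v)⁻¹ * g = v⁻¹ * (u⁻¹ * g) := by group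
    rw [e, h2, hab _ (hpow a') _ hvA, zpow_add]
    group
  rw [this]
  exact zpow_mem_zpowers c _

/-- a normal subgroup meeting `C` trivially is a union of finitely many `C`-conjugacy orbits -/
lemma orbit_cover {N : Subgroup G} [hN : N.Normal] {c : G} {F : Set G} (hF : F.Finite)
    (hc : Cov c F) (hNC : ∀ m : ℤ, c ^ m ∈ N → c ^ m = 1) :
    ∃ X : Set G, X.Finite ∧ (∀ x ∈ X, x ∈ N) ∧
      ∀ a ∈ N, ∃ x ∈ X, ∃ t : ℤ, a = c ^ t * x * (c ^ t)⁻¹ := by
  classical
  let P : G → Prop := fun f => ∃ x ∈ N, ∃ i j : ℤ, x = c ^ i * f * c ^ j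
  let r : G → G := fun f => if h : P f then h.choose else 1
  refine ⟨r '' F, hF.image r, ?_, ?_⟩
  · rintro _ ⟨f, _, rfl⟩
    by_cases h : P f
    · simp only [r, dif_pos h]
      exact h.choose_spec.1
    · simp only [r, dif_neg h]
      exact N.one_mem
  · intro a ha
    obtain ⟨i, j, f, hf, haf⟩ := hc a
    have h : P f := ⟨a, ha, i, j, haf⟩
    obtain ⟨hxN, k, l, hx⟩ := h.choose_spec
    have hr : r f = h.choose := by simp only [r, dif_pos h]
    refine ⟨r f, ⟨f, hf, rfl⟩, i - k, ?_⟩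
    rw [hr]
    set x := h.choose
    have e1 : a = c ^ (i - k) * x * (c ^ (i - k))⁻¹ * c ^ ((i - k) + (j - l)) := by
      rw [haf, hx, zpow_add c (i - k) (j - l), zpow_sub, zpow_sub]
      group
    have hmem : c ^ (i - k) * x * (c ^ (i - k))⁻¹ ∈ N := hN.conj_mem x hxN _
    have h2 : c ^ ((i - k) + (j - l)) ∈ N := by
      have : c ^ ((i - k) + (j - l)) = (c ^ (i - k) * x * (c ^ (i - k))⁻¹)⁻¹ * a := by
        rw [e1]; group
      rw [this]
      exact N.mul_mem (N.inv_mem hmem) ha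
    rw [hNC _ h2, mul_one] at e1
    exact e1

/-- conjugation by `c ^ t` on a normal subgroup -/
def conjHom (N : Subgroup G) [N.Normal] (c : G) (t : ℤ) : N →* N :=
  (MulAut.conjNormal (c ^ t) : MulAut N).toMonoidHom

lemma conjHom_coe (N : Subgroup G) [N.Normal] (c : G) (t : ℤ) (a : N) :
    ((conjHom N c t a : N) : G) = c ^ t * (a : G) * (c ^ t)⁻¹ :=
  MulAut.conjNormal_apply (c ^ t) a

lemma conjHom_zero (N : Subgroup G) [N.Normal] (c : G) (a : N) : conjHom N c 0 a = a := by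
  apply Subtype.ext
  rw [conjHom_coe]
  simp

lemma conjHom_add (N : Subgroup G) [N.Normal] (c : G) (i j : ℤ) (a : N) :
    conjHom N c (i + j) a = conjHom N c i (conjHom N c j a) := by
  apply Subtype.ext
  rw [conjHom_coe, conjHom_coe, conjHom_coe, zpow_add]
  group

lemma orbit_cover' {N : Subgroup G} [hN : N.Normal] {c : G} {F : Set G} (hF : F.Finite)
    (hc : Cov c F) (hNC : ∀ m : ℤ, c ^ m ∈ N → c ^ m = 1) :
    ∃ X : Set N, X.Finite ∧ ∀ a : N, ∃ x ∈ X, ∃ t : ℤ, a = conjHom N c t x := by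
  obtain ⟨X, hX, hXA, hcov⟩ := orbit_cover hF hc hNC
  refine ⟨{a | (a : G) ∈ X}, hX.preimage (fun a _ b _ h => Subtype.ext h), ?_⟩
  intro a
  obtain ⟨x, hx, t, ht⟩ := hcov a a.2
  refine ⟨⟨x, hXA x hx⟩, hx, t, ?_⟩
  apply Subtype.ext
  rw [conjHom_coe, ht]

/-- a normal subgroup meeting `C` trivially is finitely generated -/
lemma fg_of_trivial_inter {N : Subgroup G} [hN : N.Normal] {c : G} {F : Set G} (hF : F.Finite)
    (hc : Cov c F) (hNC : ∀ m : ℤ, c ^ m ∈ N → c ^ m = 1) : N.FG := by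
  obtain ⟨X, hX, hcov⟩ := orbit_cover' hF hc hNC
  have := fg_of_finite_orbits (conjHom_zero N c) (conjHom_add N c) hX hcov
  exact (Group.fg_iff_subgroup_fg N).mp this

lemma finite_of_abelian_normal {A : Subgroup G} [hA : A.Normal]
    (hab : ∀ x ∈ A, ∀ y ∈ A, x * y = y * x) {c : G} {F : Set G} (hF : F.Finite) (hc : Cov c F)
    (hAC : ∀ m : ℤ, c ^ m ∈ A → c ^ m = 1) : (A : Set G).Finite := by
  obtain ⟨X, hX, hcov⟩ := orbit_cover' hF hc hAC
  let _ : CommGroup A :=
    { (inferInstance : Group A) with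
      mul_comm := fun a b => Subtype.ext (hab a a.2 b b.2) }
  have : Finite A := finite_of_finite_orbits (conjHom_zero A c) (conjHom_add A c) hX hcov
  exact Set.toFinite _

/-- the join of all finite normal subgroups -/
def finJoin (G : Type*) [Group G] : Subgroup G where
  carrier := {g | ∃ N : Subgroup G, N.Normal ∧ (N : Set G).Finite ∧ g ∈ N}
  mul_mem' := by
    rintro a b ⟨N, hN, hNf, ha⟩ ⟨M, hM, hMf, hb⟩
    have := hN
    have := hM
    refine ⟨N ⊔ M, inferInstance, ?_, mul_mem (mem_sup_left ha) (mem_sup_right hb)⟩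
    rw [mul_normal]
    exact hNf.mul hMf
  one_mem' := ⟨⊥, inferInstance, by simp, one_mem _⟩
  inv_mem' := by
    rintro a ⟨N, hN, hNf, ha⟩
    exact ⟨N, hN, hNf, inv_mem ha⟩

instance finJoin_normal : (finJoin G).Normal := by
  constructor
  rintro n ⟨N, hN, hNf, hn⟩ g
  exact ⟨N, hN, hNf, hN.conj_mem n hn g⟩

lemma isOfFinOrder_of_mem_finite {N : Subgroup G} (hN : (N : Set G).Finite) {g : G} (hg : g ∈ N) :
    IsOfFinOrder g := by
  have : Finite N := hN
  have := isOfFinOrder_of_finite (⟨g, hg⟩ : N)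
  exact MonoidHom.isOfFinOrder N.subtype this

lemma zpow_eq_one_of_mem {c : G} (hc : ¬ IsOfFinOrder c) {N : Subgroup G}
    (hN : ∀ g ∈ N, IsOfFinOrder g) (m : ℤ) (hm : c ^ m ∈ N) : c ^ m = 1 := by
  by_cases h : m = 0
  · simp [h]
  · exfalso
    apply hc
    have := hN _ hm
    rw [isOfFinOrder_iff_zpow_eq_one] at this ⊢
    obtain ⟨n, hn, he⟩ := this
    exact ⟨m * n, mul_ne_zero h hn, by rw [zpow_mul]; exact he⟩

lemma finJoin_finite {c : G} {F : Set G} (hF : F.Finite) (hc : Cov c F)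
    (hord : ¬ IsOfFinOrder c) : (finJoin G : Set G).Finite := by
  have hfo : ∀ g ∈ finJoin G, IsOfFinOrder g := by
    rintro g ⟨N, _, hNf, hg⟩
    exact isOfFinOrder_of_mem_finite hNf hg
  obtain ⟨X, hX, hXN, hcov⟩ := orbit_cover (N := finJoin G) hF hc
    (zpow_eq_one_of_mem hord hfo)
  choose! N hNn hNf hNm using hXN
  refine (hX.biUnion (t := fun x => (N x : Set G)) (fun x hx => hNf x hx)).subset ?_
  intro a ha
  obtain ⟨x, hx, t, rfl⟩ := hcov a ha
  rw [Set.mem_iUnion₂]
  exact ⟨x, hx, (hNn x hx).conj_mem x (hNm x hx) _⟩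

/-- Every proper normal subgroup `N` of `G` is properly contained in a normal subgroup `M` of `G`
such that `M/N` is abelian or finite (that is, `G` is hyper-(abelian or finite)). -/
def HyperAbelianOrFinite (G : Type*) [Group G] : Prop :=
  ∀ N : Subgroup G, N.Normal → N ≠ ⊤ →
    ∃ M : Subgroup G, M.Normal ∧ N < M ∧ ((∀ x ∈ M, ∀ y ∈ M, x * y * x⁻¹ * y⁻¹ ∈ N) ∨ N.relIndex M ≠ 0)

lemma index_of_finOrder {c : G} {F : Set G} (hF : F.Finite) (hc : Cov c F)
    (hord : IsOfFinOrder c) : (zpowers c).index ≠ 0 := by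
  have hz : ((zpowers c : Subgroup G) : Set G).Finite := by
    rw [← Set.finite_coe_iff]
    exact (finite_zpowers.mpr hord)
  refine index_of_cover (hz.mul hF) ?_
  intro g
  obtain ⟨i, j, f, hf, rfl⟩ := hc g
  refine ⟨c ^ i * f, ⟨c ^ i, zpow_mem_zpowers c i, f, hf, rfl⟩, ?_⟩
  rw [mem_zpowers_iff]
  exact ⟨j, by group⟩

theorem hyper_case {c : G} {F : Set G} (hF : F.Finite) (hc : Cov c F)
    (hG : HyperAbelianOrFinite G) : (zpowers c).index ≠ 0 := by
  by_cases hord : IsOfFinOrder c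
  · exact index_of_finOrder hF hc hord
  have hN0 := finJoin_finite hF hc hord
  have hne : finJoin G ≠ ⊤ := by
    intro h
    have : c ∈ finJoin G := by rw [h]; trivial
    exact hord (isOfFinOrder_of_mem_finite hN0 this)
  obtain ⟨M, hM, hlt, hab | hfin⟩ := hG (finJoin G) inferInstance hne
  · -- abelian case
    let π := QuotientGroup.mk' (finJoin G)
    have hπ : Function.Surjective π := QuotientGroup.mk'_surjective _
    have hAn : (M.map π).Normal := hM.map π hπ
    have hAab : ∀ x ∈ M.map π, ∀ y ∈ M.map π, x * y = y * x := by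
      rintro _ ⟨x, hx, rfl⟩ _ ⟨y, hy, rfl⟩
      have h1 := hab x hx y hy
      have h2 : π (x * y * x⁻¹ * y⁻¹) = 1 := (QuotientGroup.eq_one_iff _).mpr h1
      rw [map_mul, map_mul, map_mul, map_inv, map_inv, mul_inv_eq_one, mul_inv_eq_iff_eq_mul] at h2
      exact h2
    have hcov' := hc.map π hπ
    apply index_of_quotient hN0
    by_cases hex : ∃ k : ℕ, 0 < k ∧ (π c) ^ k ∈ M.map π
    · obtain ⟨k, hk, hck⟩ := hex
      exact index_of_abelian_normal hAab (hF.image π) hcov' hk hck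
    · exfalso
      have hAC : ∀ m : ℤ, (π c) ^ m ∈ M.map π → (π c) ^ m = 1 := by
        intro m hm
        by_cases h : m = 0
        · simp [h]
        · exfalso
          apply hex
          refine ⟨m.natAbs, Int.natAbs_pos.mpr h, ?_⟩
          rcases Int.natAbs_eq m with h' | h'
          · rw [h', zpow_natCast] at hm
            exact hm
          · rw [h', zpow_neg, zpow_natCast] at hm
            exact (inv_mem_iff).mp hm
      have hfinA := finite_of_abelian_normal hAab (hF.image π) hcov' hAC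
      have hMfin : (M : Set G).Finite := by
        have h1 : (M : Set G) ⊆ (Quotient.out '' ((M.map π : Subgroup _) : Set (G ⧸ finJoin G))) * (finJoin G : Set G) := by
          intro g hg
          refine ⟨Quotient.out (g : G ⧸ finJoin G), ⟨_, ⟨g, hg, rfl⟩, rfl⟩,
            (Quotient.out (g : G ⧸ finJoin G))⁻¹ * g, ?_, by group⟩
          exact QuotientGroup.eq.mp (QuotientGroup.out_eq' _)
        exact ((hfinA.image _).mul hN0).subset h1
      exact absurd (show M ≤ finJoin G from fun g hg => ⟨M, hM, hMfin, hg⟩) (not_le_of_gt hlt)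
  · exfalso
    have hMfin : (M : Set G).Finite := by
      have h1 : Finite (M ⧸ (finJoin G).subgroupOf M) := by
        have := FiniteIndex.mk (H := (finJoin G).subgroupOf M) hfin
        exact finite_quotient_of_finiteIndex
      obtain ⟨T, hT, hcov⟩ := cover_of_index (H := (finJoin G).subgroupOf M) hfin
      have h2 : (M : Set G) ⊆ ((fun t : M => (t : G)) '' T) * (finJoin G : Set G) := by
        intro g hg
        obtain ⟨t, ht, h3⟩ := hcov ⟨g, hg⟩
        refine ⟨t, ⟨t, ht, rfl⟩, (t : G)⁻¹ * g, ?_, by group⟩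
        exact h3
      exact ((hT.image _).mul hN0).subset h2
    exact absurd (show M ≤ finJoin G from fun g hg => ⟨M, hM, hMfin, hg⟩) (not_le_of_gt hlt)

end GroupPart

/-! ### Part 3: Ito's theorem, residually finite groups and the main theorem -/

section Residual

open Subgroup
open scoped Pointwise commutatorElement

theorem ito {Q : Type*} [Group Q] (A B : Subgroup Q) (hA : ∀ x ∈ A, ∀ y ∈ A, x * y = y * x)
    (hB : ∀ x ∈ B, ∀ y ∈ B, x * y = y * x) (hAB : ∀ q : Q, ∃ a ∈ A, ∃ b ∈ B, q = a * b) :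
    ⁅⁅(⊤ : Subgroup Q), (⊤ : Subgroup Q)⁆, ⁅(⊤ : Subgroup Q), (⊤ : Subgroup Q)⁆⁆ = ⊥ := by
  have hBA : ∀ q : Q, ∃ b ∈ B, ∃ a ∈ A, q = b * a := by
    intro q
    obtain ⟨a, ha, b, hb, h⟩ := hAB q⁻¹
    exact ⟨b⁻¹, B.inv_mem hb, a⁻¹, A.inv_mem ha, by rw [← mul_inv_rev, ← h, inv_inv]⟩
  let S : Set Q := {g | ∃ a ∈ A, ∃ b ∈ B, g = ⁅a, b⁆}
  -- conjugation formulas
  have hconjA : ∀ a1 ∈ A, ∀ b ∈ B, ∃ b2 ∈ B, ∀ a ∈ A, a1 * ⁅a, b⁆ * a1⁻¹ = ⁅a, b2⁆ := by
    intro a1 ha1 b hb
    obtain ⟨b2, hb2, a2, ha2, h⟩ := hBA (a1 * b * a1⁻¹)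
    refine ⟨b2, hb2, fun a ha => ?_⟩
    have e1 : a1 * ⁅a, b⁆ * a1⁻¹ = (a1 * a * a1⁻¹) * (a1 * b * a1⁻¹) * (a1 * a * a1⁻¹)⁻¹
        * (a1 * b * a1⁻¹)⁻¹ := by
      simp only [commutatorElement_def]; group
    have e2 : a1 * a * a1⁻¹ = a := by rw [hA a1 ha1 a ha]; group
    have e3 : a2 * a⁻¹ * a2⁻¹ = a⁻¹ := by rw [hA a2 ha2 _ (A.inv_mem ha)]; group
    rw [e1, e2, h, commutatorElement_def]
    calc a * (b2 * a2) * a⁻¹ * (b2 * a2)⁻¹ = a * b2 * (a2 * a⁻¹ * a2⁻¹) * b2⁻¹ := by group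
      _ = _ := by rw [e3]
  have hconjB : ∀ b1 ∈ B, ∀ a ∈ A, ∃ a3 ∈ A, ∀ b ∈ B, b1 * ⁅a, b⁆ * b1⁻¹ = ⁅a3, b⁆ := by
    intro b1 hb1 a ha
    obtain ⟨a3, ha3, b3, hb3, h⟩ := hAB (b1 * a * b1⁻¹)
    refine ⟨a3, ha3, fun b hb => ?_⟩
    have e1 : b1 * ⁅a, b⁆ * b1⁻¹ = (b1 * a * b1⁻¹) * (b1 * b * b1⁻¹) * (b1 * a * b1⁻¹)⁻¹
        * (b1 * b * b1⁻¹)⁻¹ := by
      simp only [commutatorElement_def]; group
    have e2 : b1 * b * b1⁻¹ = b := by rw [hB b1 hb1 b hb]; group
    have e3 : b3 * b * b3⁻¹ = b := by rw [hB b3 hb3 b hb]; group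
    rw [e1, e2, h, commutatorElement_def]
    calc (a3 * b3) * b * (a3 * b3)⁻¹ * b⁻¹ = a3 * (b3 * b * b3⁻¹) * a3⁻¹ * b⁻¹ := by group
      _ = _ := by rw [e3]
  -- generators commute
  have hcomm : ∀ a ∈ A, ∀ b ∈ B, ∀ a1 ∈ A, ∀ b1 ∈ B, ⁅a1, b1⁆ * ⁅a, b⁆ = ⁅a, b⁆ * ⁅a1, b1⁆ := by
    intro a ha b hb a1' ha1' b1' hb1'
    -- use a1 = a1'⁻¹, b1 = b1'⁻¹
    obtain ⟨b2, hb2, h2⟩ := hconjA a1'⁻¹ (A.inv_mem ha1') b hb
    obtain ⟨a3, ha3, h3⟩ := hconjB b1'⁻¹ (B.inv_mem hb1') a ha
    have h4 : b1'⁻¹ * (a1'⁻¹ * ⁅a, b⁆ * a1'⁻¹⁻¹) * b1'⁻¹⁻¹ = ⁅a3, b2⁆ := by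
      rw [h2 a ha]; exact h3 b2 hb2
    have h5 : a1'⁻¹ * (b1'⁻¹ * ⁅a, b⁆ * b1'⁻¹⁻¹) * a1'⁻¹⁻¹ = ⁅a3, b2⁆ := by
      rw [h3 b hb]; exact h2 a3 ha3
    have h6 := h4.trans h5.symm
    have h7 : ⁅a1', b1'⁆ * ⁅a, b⁆ * ⁅a1', b1'⁆⁻¹ = ⁅a, b⁆ := by
      have : ⁅a1', b1'⁆ * ⁅a, b⁆ * ⁅a1', b1'⁆⁻¹
          = a1' * b1' * (a1'⁻¹ * (b1'⁻¹ * ⁅a, b⁆ * b1'⁻¹⁻¹) * a1'⁻¹⁻¹) * b1'⁻¹ * a1'⁻¹ := by
        simp only [commutatorElement_def a1' b1']; group
      rw [this, ← h6]
      group
    exact mul_inv_eq_iff_eq_mul.mp h7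
  let D : Subgroup Q := closure S
  have hSS : S ⊆ centralizer S := by
    rintro _ ⟨a, ha, b, hb, rfl⟩
    rw [SetLike.mem_coe, mem_centralizer_iff]
    rintro _ ⟨a1, ha1, b1, hb1, rfl⟩
    exact hcomm a ha b hb a1 ha1 b1 hb1
  have hDD : D ≤ centralizer (D : Set Q) := by
    have h1 : D ≤ centralizer S := (closure_le _).mpr hSS
    have h2 : S ⊆ centralizer (D : Set Q) := by
      intro s hs
      rw [SetLike.mem_coe, mem_centralizer_iff]
      intro d hd
      exact (mem_centralizer_iff.mp (h1 hd) s hs).symm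
    exact (closure_le _).mpr h2
  have hconj : ∀ g : Q, (∀ s ∈ S, g * s * g⁻¹ ∈ D) → ∀ d ∈ D, g * d * g⁻¹ ∈ D := by
    intro g hg d hd
    induction hd using closure_induction with
    | mem x hx => exact hg x hx
    | one => simp [D.one_mem]
    | mul x y _ _ hx hy =>
      have : g * (x * y) * g⁻¹ = (g * x * g⁻¹) * (g * y * g⁻¹) := by group
      rw [this]; exact D.mul_mem hx hy
    | inv x _ hx =>
      have : g * x⁻¹ * g⁻¹ = (g * x * g⁻¹)⁻¹ := by group
      rw [this]; exact D.inv_mem hx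
  have hDn : D.Normal := by
    constructor
    intro d hd q
    obtain ⟨a, ha, b, hb, rfl⟩ := hAB q
    have h1 : b * d * b⁻¹ ∈ D := by
      refine hconj b ?_ d hd
      rintro _ ⟨a', ha', b', hb', rfl⟩
      obtain ⟨a3, ha3, h⟩ := hconjB b hb a' ha'
      rw [h b' hb']
      exact subset_closure ⟨a3, ha3, b', hb', rfl⟩
    have h2 : a * (b * d * b⁻¹) * a⁻¹ ∈ D := by
      refine hconj a ?_ _ h1
      rintro _ ⟨a', ha', b', hb', rfl⟩
      obtain ⟨b2, hb2, h⟩ := hconjA a ha b' hb'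
      rw [h a' ha']
      exact subset_closure ⟨a', ha', b2, hb2, rfl⟩
    have : a * b * d * (a * b)⁻¹ = a * (b * d * b⁻¹) * a⁻¹ := by group
    rw [this]; exact h2
  have hle : ⁅(⊤ : Subgroup Q), (⊤ : Subgroup Q)⁆ ≤ D := by
    rw [commutator_le]
    intro x _ y _
    obtain ⟨a, ha, b, hb, rfl⟩ := hAB x
    obtain ⟨a', ha', b', hb', rfl⟩ := hAB y
    have hc : ∀ u ∈ A, ∀ v ∈ B, Commute (QuotientGroup.mk' D u) (QuotientGroup.mk' D v) := by
      intro u hu v hv
      have : QuotientGroup.mk' D ⁅u, v⁆ = 1 :=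
        (QuotientGroup.eq_one_iff _).mpr (subset_closure ⟨u, hu, v, hv, rfl⟩)
      rw [map_commutatorElement] at this
      exact commutatorElement_eq_one_iff_commute.mp this
    have haa : Commute (QuotientGroup.mk' D a) (QuotientGroup.mk' D a') := by
      have := congrArg (QuotientGroup.mk' D) (hA a ha a' ha')
      rw [map_mul, map_mul] at this
      exact this
    have hbb : Commute (QuotientGroup.mk' D b) (QuotientGroup.mk' D b') := by
      have := congrArg (QuotientGroup.mk' D) (hB b hb b' hb')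
      rw [map_mul, map_mul] at this
      exact this
    have hfin : Commute (QuotientGroup.mk' D (a * b)) (QuotientGroup.mk' D (a' * b')) := by
      rw [map_mul, map_mul]
      exact Commute.mul_left (Commute.mul_right haa (hc a ha b' hb'))
        (Commute.mul_right (hc a' ha' b hb).symm hbb)
    have : QuotientGroup.mk' D ⁅a * b, a' * b'⁆ = 1 := by
      rw [map_commutatorElement]
      exact commutatorElement_eq_one_iff_commute.mpr hfin
    exact (QuotientGroup.eq_one_iff _).mp this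
  rw [eq_bot_iff]
  calc ⁅⁅(⊤ : Subgroup Q), (⊤ : Subgroup Q)⁆, ⁅(⊤ : Subgroup Q), (⊤ : Subgroup Q)⁆⁆
      ≤ ⁅D, D⁆ := commutator_mono hle hle
    _ ≤ ⊥ := by
      rw [le_bot_iff, commutator_eq_bot_iff_le_centralizer]
      exact hDD

variable {G : Type*} [Group G]

/-- a finite Baire category argument -/
lemma baire {c : G} {F : Set G} (hF : F.Finite) (hc : Cov c F) :
    ∃ f ∈ F, ∃ N : Subgroup G, N.Normal ∧ N.index ≠ 0 ∧
      ∀ M : Subgroup G, M.Normal → M.index ≠ 0 → ∀ n ∈ N, ∃ i j : ℤ, ∃ m ∈ M,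
        n = f⁻¹ * c ^ i * f * c ^ j * m := by
  classical
  by_contra hcon
  push Not at hcon
  have key : ∀ S : Finset G, (S : Set G) ⊆ F → ∃ (x : G) (N : Subgroup G), N.Normal ∧ N.index ≠ 0 ∧
      ∀ n ∈ N, ∀ f ∈ S, ∀ i j : ℤ, x * n ≠ c ^ i * f * c ^ j := by
    intro S
    induction S using Finset.induction_on with
    | empty =>
      intro _
      exact ⟨1, ⊤, inferInstance, by simp, by simp⟩
    | insert f S _ ih =>
      intro hS
      obtain ⟨x, N, hN, hNi, h⟩ := ih (fun y hy => hS (by simp [Finset.mem_coe.mp hy]))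
      by_cases hex : ∃ n ∈ N, ∃ a b : ℤ, x * n = c ^ a * f * c ^ b
      · obtain ⟨n, hn, a, b, hxn⟩ := hex
        obtain ⟨M, hM, hMi, n0, hn0, hne⟩ := hcon f (hS (by simp)) N hN hNi
        refine ⟨c ^ a * f * n0 * c ^ b, M ⊓ N, inferInstance, ?_, ?_⟩
        · have h1 : M.FiniteIndex := ⟨hMi⟩
          have h2 : N.FiniteIndex := ⟨hNi⟩
          exact (inferInstance : (M ⊓ N).FiniteIndex).index_ne_zero
        · intro n' hn' f' hf' i j heq
          rw [Finset.mem_insert] at hf'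
          rcases hf' with rfl | hf'
          · apply hne (i - a) (j - b) (c ^ b * n'⁻¹ * (c ^ b)⁻¹)
              (hM.conj_mem _ (M.inv_mem hn'.1) _)
            have : n0 = f'⁻¹ * (c ^ a)⁻¹ * (c ^ a * f' * n0 * c ^ b * n') * n'⁻¹ * (c ^ b)⁻¹ := by
              group
            rw [this, heq, zpow_sub, zpow_sub]
            have hcc : c ^ i * (c ^ a)⁻¹ = (c ^ a)⁻¹ * c ^ i := by
              rw [← zpow_neg, ← zpow_add, ← zpow_add, add_comm]
            rw [hcc]
            group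
          · refine h (n * (c ^ (-b) * n0 * (c ^ (-b))⁻¹) * n') ?_ f' hf' i j ?_
            · exact N.mul_mem (N.mul_mem hn (hN.conj_mem _ hn0 _)) hn'.2
            · rw [← heq]
              have : x * (n * (c ^ (-b) * n0 * (c ^ (-b))⁻¹) * n')
                  = (x * n) * (c ^ (-b) * n0 * (c ^ (-b))⁻¹) * n' := by group
              rw [this, hxn]
              group
      · push Not at hex
        refine ⟨x, N, hN, hNi, ?_⟩
        intro n hn f' hf' i j
        rw [Finset.mem_insert] at hf'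
        rcases hf' with rfl | hf'
        · exact hex n hn i j
        · exact h n hn f' hf' i j
  obtain ⟨x, N, _, _, h⟩ := key hF.toFinset (by simp)
  obtain ⟨i, j, f, hf, hx⟩ := hc x
  exact h 1 N.one_mem f (by simpa using hf) i j (by rw [mul_one]; exact hx)

/-- residual finiteness -/
def RF (G : Type*) [Group G] : Prop :=
  ∀ g : G, g ≠ 1 → ∃ N : Subgroup G, N.Normal ∧ N.index ≠ 0 ∧ g ∉ N

lemma virtually_metabelian {c : G} {F : Set G} (hF : F.Finite) (hc : Cov c F) (hRF : RF G) :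
    ∃ N : Subgroup G, N.Normal ∧ N.index ≠ 0 ∧ ⁅⁅N, N⁆, ⁅N, N⁆⁆ = ⊥ := by
  obtain ⟨f, _, N, hN, hNi, h⟩ := baire hF hc
  refine ⟨N, hN, hNi, ?_⟩
  let A : Subgroup G := zpowers (f⁻¹ * c * f)
  let B : Subgroup G := zpowers c
  let K : Subgroup G := A ⊔ N
  have hNK : N ≤ K := le_sup_right
  have hAK : A ≤ K := le_sup_left
  have hmain : ∀ M : Subgroup G, M.Normal → M.index ≠ 0 → ⁅⁅K, K⁆, ⁅K, K⁆⁆ ≤ M := by
    intro M hM hMi
    let M' : Subgroup G := M ⊓ N
    have hM'n : M'.Normal := inferInstance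
    have hM'i : M'.index ≠ 0 := by
      have h1 : M.FiniteIndex := ⟨hMi⟩
      have h2 : N.FiniteIndex := ⟨hNi⟩
      exact (inferInstance : (M ⊓ N).FiniteIndex).index_ne_zero
    have hdec : ∀ x ∈ K, ∃ a ∈ A, ∃ b ∈ B, b ∈ K ∧ ∃ m ∈ M', x = a * b * m := by
      intro x hx
      have hx' : x ∈ (A : Set G) * (N : Set G) := by rw [← mul_normal]; exact hx
      obtain ⟨a0, ha0, n, hn, rfl⟩ := hx'
      obtain ⟨i, j, m, hm, hnm⟩ := h M' hM'n hM'i n hn
      have e1 : f⁻¹ * c ^ i * f = (f⁻¹ * c * f) ^ i := by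
        have := conj_zpow (i := i) (a := f⁻¹) (b := c)
        simpa using this.symm
      have ha : a0 * (f⁻¹ * c * f) ^ i ∈ A := A.mul_mem ha0 (zpow_mem_zpowers _ _)
      have hb : c ^ j ∈ B := zpow_mem_zpowers _ _
      refine ⟨_, ha, _, hb, ?_, m, hm, ?_⟩
      · have : c ^ j = (a0 * (f⁻¹ * c * f) ^ i)⁻¹ * (a0 * n) * m⁻¹ := by
          rw [hnm, e1]; group
        rw [this]
        exact K.mul_mem (K.mul_mem (K.inv_mem (hAK ha)) (K.mul_mem (hAK ha0) (hNK hn)))
          (K.inv_mem (hNK hm.2))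
      · change a0 * n = _
        rw [hnm, e1]; group
    let π : K →* K ⧸ (M'.subgroupOf K) := QuotientGroup.mk' _
    have hπ : Function.Surjective π := QuotientGroup.mk'_surjective _
    have hz : ∀ (g : G) (H : Subgroup G), ∀ x ∈ ((zpowers g).subgroupOf H), ∀ y ∈ ((zpowers g).subgroupOf H),
        x * y = y * x := by
      intro g H x hx y hy
      rw [mem_subgroupOf, mem_zpowers_iff] at hx hy
      obtain ⟨i, hi⟩ := hx
      obtain ⟨j, hj⟩ := hy
      apply Subtype.ext
      rw [coe_mul, coe_mul, ← hi, ← hj, ← zpow_add, ← zpow_add, add_comm]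
    have hito := ito (Q := K ⧸ (M'.subgroupOf K)) ((A.subgroupOf K).map π) ((B.subgroupOf K).map π)
      (by
        rintro _ ⟨x, hx, rfl⟩ _ ⟨y, hy, rfl⟩
        rw [← map_mul, ← map_mul, hz _ _ x hx y hy])
      (by
        rintro _ ⟨x, hx, rfl⟩ _ ⟨y, hy, rfl⟩
        rw [← map_mul, ← map_mul, hz _ _ x hx y hy])
      (by
        intro q
        obtain ⟨x, rfl⟩ := hπ q
        obtain ⟨a, ha, b, hb, hbK, m, hm, hx⟩ := hdec x x.2
        refine ⟨π ⟨a, hAK ha⟩, ⟨_, ha, rfl⟩, π ⟨b, hbK⟩, ⟨_, hb, rfl⟩, ?_⟩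
        have hx2 : x = ⟨a, hAK ha⟩ * ⟨b, hbK⟩ * ⟨m, hNK hm.2⟩ := Subtype.ext hx
        have hm1 : π ⟨m, hNK hm.2⟩ = 1 := (QuotientGroup.eq_one_iff _).mpr hm
        rw [hx2, map_mul, map_mul, hm1, mul_one])
    have h1 : ⁅⁅(⊤ : Subgroup K), (⊤ : Subgroup K)⁆, ⁅(⊤ : Subgroup K), (⊤ : Subgroup K)⁆⁆
        ≤ M'.subgroupOf K := by
      have h2 : (⁅⁅(⊤ : Subgroup K), (⊤ : Subgroup K)⁆, ⁅(⊤ : Subgroup K), (⊤ : Subgroup K)⁆⁆).map π
          = ⊥ := by
        rw [map_commutator, map_commutator, map_top_of_surjective π hπ, hito]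
      rw [Subgroup.map_eq_bot_iff] at h2
      rwa [QuotientGroup.ker_mk'] at h2
    have h3 : (⁅⁅(⊤ : Subgroup K), (⊤ : Subgroup K)⁆, ⁅(⊤ : Subgroup K), (⊤ : Subgroup K)⁆⁆).map
        K.subtype = ⁅⁅K, K⁆, ⁅K, K⁆⁆ := by
      rw [map_commutator, map_commutator, ← MonoidHom.range_eq_map, range_subtype]
    rw [← h3]
    intro g hg
    obtain ⟨x, hx, rfl⟩ := hg
    exact (h1 hx).1
  have hbot : ⁅⁅K, K⁆, ⁅K, K⁆⁆ = ⊥ := by
    rw [eq_bot_iff]
    intro g hg
    rw [mem_bot]
    by_contra hne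
    obtain ⟨M, hM, hMi, hgM⟩ := hRF g hne
    exact hgM (hmain M hM hMi hg)
  rw [eq_bot_iff, ← hbot]
  exact commutator_mono (commutator_mono hNK hNK) (commutator_mono hNK hNK)

lemma comm_mod {D L : Subgroup G} (hL : L.Normal) (h : ∀ x ∈ D, ∀ y ∈ D, x * y * x⁻¹ * y⁻¹ ∈ L) :
    ∀ x ∈ D ⊔ L, ∀ y ∈ D ⊔ L, x * y * x⁻¹ * y⁻¹ ∈ L := by
  intro x hx y hy
  have hx' : x ∈ (D : Set G) * (L : Set G) := by rw [← mul_normal]; exact hx
  have hy' : y ∈ (D : Set G) * (L : Set G) := by rw [← mul_normal]; exact hy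
  obtain ⟨d, hd, l, hl, rfl⟩ := hx'
  obtain ⟨d', hd', l', hl', rfl⟩ := hy'
  have e1 : (QuotientGroup.mk' L) l = 1 := (QuotientGroup.eq_one_iff _).mpr hl
  have e2 : (QuotientGroup.mk' L) l' = 1 := (QuotientGroup.eq_one_iff _).mpr hl'
  have e3 : (QuotientGroup.mk' L) (d * d' * d⁻¹ * d'⁻¹) = 1 :=
    (QuotientGroup.eq_one_iff _).mpr (h d hd d' hd')
  apply (QuotientGroup.eq_one_iff _).mp
  change (QuotientGroup.mk' L) ((d * l) * (d' * l') * (d * l)⁻¹ * (d' * l')⁻¹) = 1
  simp only [map_mul, map_inv, e1, e2, mul_one] at e3 ⊢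
  exact e3

lemma hyper_of_metabelian {N : Subgroup G} (hN : N.Normal) (hNi : N.index ≠ 0)
    (h : ⁅⁅N, N⁆, ⁅N, N⁆⁆ = ⊥) : HyperAbelianOrFinite G := by
  intro L hL hLt
  by_cases h1 : ⁅N, N⁆ ≤ L
  · by_cases h2 : N ≤ L
    · refine ⟨⊤, inferInstance, lt_top_iff_ne_top.mpr hLt, Or.inr ?_⟩
      rw [relIndex_top_right]
      intro h0
      have := index_dvd_of_le h2
      rw [h0, zero_dvd_iff] at this
      exact hNi this
    · refine ⟨N ⊔ L, inferInstance, ?_, Or.inl ?_⟩
      · refine lt_of_le_of_ne le_sup_right ?_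
        intro he
        exact h2 (he ▸ le_sup_left)
      · apply comm_mod hL
        intro x hx y hy
        exact h1 (commutator_mem_commutator hx hy)
  · refine ⟨⁅N, N⁆ ⊔ L, inferInstance, ?_, Or.inl ?_⟩
    · refine lt_of_le_of_ne le_sup_right ?_
      intro he
      exact h1 (he ▸ le_sup_left)
    · apply comm_mod hL
      intro x hx y hy
      have : ⁅x, y⁆ ∈ ⁅⁅N, N⁆, ⁅N, N⁆⁆ := commutator_mem_commutator hx hy
      rw [h, mem_bot] at this
      rw [commutatorElement_def] at this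
      rw [this]
      exact L.one_mem

theorem rf_case {c : G} {F : Set G} (hF : F.Finite) (hc : Cov c F) (hRF : RF G) :
    (zpowers c).index ≠ 0 := by
  obtain ⟨N, hN, hNi, h⟩ := virtually_metabelian hF hc hRF
  exact hyper_case hF hc (hyper_of_metabelian hN hNi h)

lemma rf_of_index {c : G} (h : (zpowers c).index ≠ 0) : RF G := by
  intro q hq
  suffices hs : ∃ H : Subgroup G, H.index ≠ 0 ∧ q ∉ H by
    obtain ⟨H, hH, hqH⟩ := hs
    have : H.FiniteIndex := ⟨hH⟩
    exact ⟨H.normalCore, inferInstance, FiniteIndex.index_ne_zero, fun hc => hqH (normalCore_le H hc)⟩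
  obtain ⟨T, hT, hcov⟩ := cover_of_index h
  by_cases hord : IsOfFinOrder c
  · refine ⟨⊥, ?_, by simpa using hq⟩
    have hz : ((zpowers c : Subgroup G) : Set G).Finite := by
      rw [← Set.finite_coe_iff]
      exact (finite_zpowers.mpr hord)
    refine index_of_cover (hT.mul hz) ?_
    intro g
    obtain ⟨t, ht, h1⟩ := hcov g
    refine ⟨t * (t⁻¹ * g), ⟨t, ht, _, h1, rfl⟩, ?_⟩
    simp
  · by_cases hqc : q ∈ zpowers c
    · obtain ⟨a, ha⟩ := mem_zpowers_iff.mp hqc
      have ha0 : a ≠ 0 := by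
        rintro rfl
        exact hq (by rw [← ha, zpow_zero])
      have htpos : (0 : ℤ) < |a| + 1 := by positivity
      refine ⟨zpowers (c ^ (|a| + 1)), ?_, ?_⟩
      · refine index_of_cover (T := T * ((fun i : ℤ => c ^ i) '' Set.Ico (0 : ℤ) (|a| + 1)))
          (hT.mul ((Set.finite_Ico _ _).image _)) ?_
        intro g
        obtain ⟨t, ht, h1⟩ := hcov g
        obtain ⟨m, hm⟩ := mem_zpowers_iff.mp h1
        refine ⟨t * c ^ (m % (|a| + 1)), ⟨t, ht, _, ⟨m % (|a| + 1), ⟨Int.emod_nonneg _ htpos.ne',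
          Int.emod_lt_of_pos _ htpos⟩, rfl⟩, rfl⟩, ?_⟩
        rw [mem_zpowers_iff]
        refine ⟨m / (|a| + 1), ?_⟩
        rw [← zpow_mul]
        have e1 : (t * c ^ (m % (|a| + 1)))⁻¹ * g = (c ^ (m % (|a| + 1)))⁻¹ * c ^ m := by
          rw [hm]; group
        rw [e1, ← zpow_neg, ← zpow_add]
        congr 1
        have := Int.emod_add_mul_ediv m (|a| + 1)
        linarith
      · intro hmem
        obtain ⟨b, hb⟩ := mem_zpowers_iff.mp hmem
        rw [← ha, ← zpow_mul] at hb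
        have hinj := injective_zpow_iff_not_isOfFinOrder.mpr hord
        have hab : (|a| + 1) * b = a := hinj hb
        have h1 : (|a| + 1) ∣ a := ⟨b, hab.symm⟩
        have h2 := Int.le_of_dvd (abs_pos.mpr ha0) ((dvd_abs _ _).mpr h1)
        linarith
    · exact ⟨zpowers c, h, hqc⟩

/-- the finite residual: the intersection of all normal subgroups of finite index -/
def finRes (G : Type*) [Group G] : Subgroup G :=
  ⨅ N : {N : Subgroup G // N.Normal ∧ N.index ≠ 0}, (N : Subgroup G)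

lemma mem_finRes {g : G} : g ∈ finRes G ↔ ∀ N : Subgroup G, N.Normal → N.index ≠ 0 → g ∈ N := by
  unfold finRes
  rw [mem_iInf]
  constructor
  · intro h N hN hNi
    exact h ⟨N, hN, hNi⟩
  · rintro h ⟨N, hN, hNi⟩
    exact h N hN hNi

instance finRes_normal : (finRes G).Normal := by
  constructor
  intro n hn g
  rw [mem_finRes] at hn ⊢
  intro N hN hNi
  exact hN.conj_mem n (hn N hN hNi) g

lemma rf_quot_finRes : RF (G ⧸ finRes G) := by
  intro q hq
  obtain ⟨g, rfl⟩ := QuotientGroup.mk'_surjective _ q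
  have hg : g ∉ finRes G := fun h => hq ((QuotientGroup.eq_one_iff _).mpr h)
  rw [mem_finRes] at hg
  push Not at hg
  obtain ⟨N, hN, hNi, hgN⟩ := hg
  have hle : finRes G ≤ N := fun x hx => mem_finRes.mp hx N hN hNi
  refine ⟨N.map (QuotientGroup.mk' (finRes G)), hN.map _ (QuotientGroup.mk'_surjective _), ?_, ?_⟩
  · have h1 := index_map_dvd N (QuotientGroup.mk'_surjective (finRes G))
    intro h0
    rw [h0, zero_dvd_iff] at h1
    exact hNi h1
  · rintro ⟨x, hx, hxg⟩
    have : (x : G ⧸ finRes G) = (g : G ⧸ finRes G) := hxg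
    rw [QuotientGroup.eq] at this
    apply hgN
    have h2 := N.mul_mem hx (hle this)
    simpa using h2

/-- a finitely generated group with a proper subgroup of finite index has a proper characteristic
subgroup of finite index -/
lemma exists_characteristic {K : Type*} [Group K] (hK : Group.FG K) {L : Subgroup K}
    (hL : L ≠ ⊤) (hLi : L.index ≠ 0) :
    ∃ M : Subgroup K, M.Characteristic ∧ M.index ≠ 0 ∧ M ≠ ⊤ := by
  classical
  have hfq : Finite (K ⧸ L) := by
    have := FiniteIndex.mk hLi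
    exact finite_quotient_of_finiteIndex
  obtain ⟨S, hS⟩ := hK.out
  have hfin : Finite (K →* Equiv.Perm (K ⧸ L)) := by
    have hinj : Function.Injective
        (fun (f : K →* Equiv.Perm (K ⧸ L)) (s : (S : Set K)) => f s) := by
      intro f g hfg
      apply MonoidHom.eq_of_eqOn_dense hS
      intro s hs
      exact congrFun hfg ⟨s, hs⟩
    exact Finite.of_injective _ hinj
  refine ⟨⨅ f : K →* Equiv.Perm (K ⧸ L), f.ker, ?_, ?_, ?_⟩
  · rw [characteristic_iff_le_comap]
    intro φ x hx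
    rw [mem_comap, mem_iInf]
    rw [mem_iInf] at hx
    intro f
    exact hx (f.comp φ.toMonoidHom)
  · have h1 : ∀ f : K →* Equiv.Perm (K ⧸ L), f.ker.FiniteIndex := fun f => inferInstance
    exact (finiteIndex_iInf h1).index_ne_zero
  · intro htop
    apply hL
    rw [eq_top_iff]
    intro x _
    have hx : x ∈ ⨅ f : K →* Equiv.Perm (K ⧸ L), f.ker := by rw [htop]; trivial
    rw [mem_iInf] at hx
    have h2 := hx (MulAction.toPermHom K (K ⧸ L))
    rw [MonoidHom.mem_ker] at h2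
    have h3 : x • ((1 : K) : K ⧸ L) = ((1 : K) : K ⧸ L) := by
      have := congrArg (fun e : Equiv.Perm (K ⧸ L) => e ((1 : K) : K ⧸ L)) h2
      exact this
    have h4 : ((x * 1 : K) : K ⧸ L) = ((1 : K) : K ⧸ L) := h3
    rw [mul_one] at h4
    have h5 := QuotientGroup.eq.mp h4.symm
    simpa using h5

/-- sanity check: residually finite groups satisfy the hypothesis of the main theorem -/
lemma hypothesis_of_RF (h : RF G) (K : Subgroup G) (hK : K ≠ ⊥) :
    ∃ L : Subgroup G, L < K ∧ L.relIndex K ≠ 0 := by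
  obtain ⟨k, hk1⟩ := ne_bot_iff_exists_ne_one.mp hK
  obtain ⟨N, hN, hNi, hkN⟩ := h (k : G) (fun h => hk1 (Subtype.ext h))
  refine ⟨N ⊓ K, lt_of_le_of_ne inf_le_right ?_, ?_⟩
  · intro he
    have : (k : G) ∈ N ⊓ K := by rw [he]; exact k.2
    exact hkN this.1
  · rw [inf_relIndex_right]
    intro h0
    have h1 := relIndex_dvd_index_of_normal N K
    rw [h0, zero_dvd_iff] at h1
    exact hNi h1

/-- **Main theorem.** Let `G = C F C` with `C` a cyclic subgroup and `F` a finite set.  If every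
nontrivial finitely generated normal subgroup of `G` has a proper subgroup of finite index (for
instance if `G` is locally graded), then `C` has finite index in `G`. -/
theorem result {G : Type*} [Group G] (C : Subgroup G) (F : Set G) (hC : IsCyclic C) (hF : F.Finite)
    (hcov : ∀ g : G, ∃ c₁ ∈ C, ∃ f ∈ F, ∃ c₂ ∈ C, g = c₁ * f * c₂)
    (hG : ∀ K : Subgroup G, K.Normal → K.FG → K ≠ ⊥ → ∃ L : Subgroup G, L < K ∧ L.relIndex K ≠ 0) :
    C.index ≠ 0 := by
  obtain ⟨c0, hc0⟩ := hC.exists_generator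
  have hCz : C = zpowers (c0 : G) := by
    apply le_antisymm
    · intro x hx
      obtain ⟨k, hk⟩ := mem_zpowers_iff.mp (hc0 ⟨x, hx⟩)
      rw [mem_zpowers_iff]
      exact ⟨k, by rw [← coe_zpow, hk]⟩
    · rw [zpowers_le]
      exact c0.2
  have hc : Cov (c0 : G) F := by
    intro g
    obtain ⟨c₁, h1, f, hf, c₂, h2, rfl⟩ := hcov g
    rw [hCz, mem_zpowers_iff] at h1 h2
    obtain ⟨i, rfl⟩ := h1
    obtain ⟨j, rfl⟩ := h2
    exact ⟨i, j, f, hf, rfl⟩
  rw [hCz]
  clear hcov hCz hc0 hC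
  generalize (c0 : G) = c at hc
  by_cases hord : IsOfFinOrder c
  · exact index_of_finOrder hF hc hord
  let R := finRes G
  let π : G →* G ⧸ R := QuotientGroup.mk' R
  have hπ : Function.Surjective π := QuotientGroup.mk'_surjective _
  have hidxR : (zpowers (π c)).index ≠ 0 := rf_case (hF.image π) (hc.map π hπ) rf_quot_finRes
  -- the finite residual is trivial
  have hR : R = ⊥ := by
    by_contra hne
    -- `R` is finitely generated
    have hfg : R.FG := by
      by_cases hint : ∀ m : ℤ, c ^ m ∈ R → c ^ m = 1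
      · exact fg_of_trivial_inter hF hc hint
      · push Not at hint
        obtain ⟨m, hm, hm1⟩ := hint
        have hm0 : m ≠ 0 := by
          rintro rfl
          exact hm1 (zpow_zero c)
        have hfo : IsOfFinOrder (π c) := by
          rw [isOfFinOrder_iff_zpow_eq_one]
          refine ⟨m, hm0, ?_⟩
          rw [← map_zpow]
          exact (QuotientGroup.eq_one_iff _).mpr hm
        have hRi : R.index ≠ 0 := by
          have h1 : (⊥ : Subgroup (G ⧸ R)).index ≠ 0 := by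
            obtain ⟨T, hT, hcov⟩ := cover_of_index hidxR
            have hz : ((zpowers (π c) : Subgroup (G ⧸ R)) : Set (G ⧸ R)).Finite := by
              rw [← Set.finite_coe_iff]
              exact (finite_zpowers.mpr hfo)
            refine index_of_cover (hT.mul hz) ?_
            intro g
            obtain ⟨t, ht, h2⟩ := hcov g
            refine ⟨t * (t⁻¹ * g), ⟨t, ht, _, h2, rfl⟩, ?_⟩
            simp
          have h3 : (⊥ : Subgroup (G ⧸ R)).comap π = R := by
            rw [MonoidHom.comap_bot]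
            exact QuotientGroup.ker_mk' R
          rw [← h3, index_comap_of_surjective _ hπ]
          exact h1
        have hGfg : Group.FG G := by
          rw [Group.fg_iff]
          refine ⟨insert c F, ?_, hF.insert c⟩
          rw [eq_top_iff]
          intro g _
          obtain ⟨i, j, f, hf, rfl⟩ := hc g
          have h4 : c ∈ closure (insert c F) := subset_closure (Set.mem_insert _ _)
          have h5 : f ∈ closure (insert c F) := subset_closure (Set.mem_insert_of_mem _ hf)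
          exact mul_mem (mul_mem (zpow_mem h4 i) h5) (zpow_mem h4 j)
        have hRf : R.FiniteIndex := ⟨hRi⟩
        exact (Group.fg_iff_subgroup_fg R).mp inferInstance
    obtain ⟨L, hLR, hLi⟩ := hG R inferInstance hfg hne
    obtain ⟨M, hMc, hMi, hMt⟩ := exists_characteristic (L := L.subgroupOf R)
      ((Group.fg_iff_subgroup_fg R).mpr hfg)
      (by
        intro h
        rw [subgroupOf_eq_top] at h
        exact absurd h (not_le_of_gt hLR)) hLi
    let M' : Subgroup G := M.map R.subtype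
    have hM'n : M'.Normal := inferInstance
    have hM'R : M' ≤ R := by
      rintro _ ⟨x, _, rfl⟩
      exact x.2
    -- a finite cover of `R` by cosets of `M'`
    obtain ⟨T0, hT0, hcovM⟩ := cover_of_index hMi
    -- `C` has finite index modulo `M'`
    let ρ : G →* G ⧸ M' := QuotientGroup.mk' M'
    have hρ : Function.Surjective ρ := QuotientGroup.mk'_surjective _
    have hidxM : (zpowers (ρ c)).index ≠ 0 := by
      obtain ⟨T, hT, hcov⟩ := cover_of_index hidxR
      refine index_of_cover (T := ρ '' ((Quotient.out '' T) * ((fun t : R => (t : G)) '' T0)))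
        (((hT.image _).mul (hT0.image _)).image _) ?_
      intro g'
      obtain ⟨g, rfl⟩ := hρ g'
      obtain ⟨t, ht, h1⟩ := hcov (π g)
      obtain ⟨k, hk⟩ := mem_zpowers_iff.mp h1
      have e1 : π (Quotient.out t) = t := QuotientGroup.out_eq' t
      have e2 : π ((Quotient.out t)⁻¹ * g) = π (c ^ k) := by
        rw [map_mul, map_inv, e1, map_zpow, hk]
      have e3 : (Quotient.out t)⁻¹ * g / c ^ k ∈ R := QuotientGroup.eq_iff_div_mem.mp e2
      obtain ⟨t', ht', h2⟩ := hcovM ⟨_, e3⟩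
      refine ⟨ρ (Quotient.out t * t'), ⟨_, ⟨_, ⟨t, ht, rfl⟩, _, ⟨t', ht', rfl⟩, rfl⟩, rfl⟩, ?_⟩
      rw [mem_zpowers_iff]
      refine ⟨k, ?_⟩
      rw [← map_zpow, ← map_inv, ← map_mul]
      symm
      apply QuotientGroup.eq_iff_div_mem.mpr
      have h3 : (t' : G)⁻¹ * ((Quotient.out t)⁻¹ * g / c ^ k) ∈ M' := ⟨_, h2, rfl⟩
      have h4 : (Quotient.out t * (t' : G))⁻¹ * g / c ^ k
          = (t' : G)⁻¹ * ((Quotient.out t)⁻¹ * g / c ^ k) := by
        simp only [div_eq_mul_inv]; group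
      rw [h4]
      exact h3
    -- hence `G / M'` is residually finite and `R ≤ M'`
    have hRM : R ≤ M' := by
      intro r hr
      by_contra hrM
      have hrne : ρ r ≠ 1 := fun h => hrM ((QuotientGroup.eq_one_iff _).mp h)
      obtain ⟨P, hP, hPi, hrP⟩ := rf_of_index hidxM (ρ r) hrne
      apply hrP
      have : r ∈ P.comap ρ := by
        refine mem_finRes.mp hr (P.comap ρ) (hP.comap _) ?_
        rw [index_comap_of_surjective _ hρ]
        exact hPi
      exact this
    apply hMt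
    rw [eq_top_iff]
    rintro ⟨x, hx⟩ _
    obtain ⟨y, hy, hyx⟩ := hRM hx
    have : y = ⟨x, hx⟩ := Subtype.ext hyx
    rw [← this]
    exact hy
  -- so `G` is residually finite
  apply rf_case hF hc
  intro g hg
  have hgR : g ∉ R := by
    rw [hR, mem_bot]
    exact hg
  have hgR' : ¬ ∀ N : Subgroup G, N.Normal → N.index ≠ 0 → g ∈ N := fun h => hgR (mem_finRes.mpr h)
  push Not at hgR'
  exact hgR'

end Residual

end Pool.Agent.Results.MP_ece58e_al.LocallyGraded
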